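import Pool.Agent.Helper77.K3.DefsI

/-!
# K3, module `trans` (6.1): there are no translations in the group
-/

set_option autoImplicit false

open Set Filter Topology

namespace Pool.Agent.Helper13.K3.trans

open Pool.Agent.Helper77.K3

variable (hco : S_coord)

include hco in
/-- a point from its coordinates -/
lemma apply_diag {g : Aff3} {ν : Fin 3 → ℝ} (h : ∀ i j, lin g i j = if i = j then ν i else 0)
    (h0 : ∀ i, tr g i = 0) (x : E) (i : Fin 3) : g x i = ν i * x i := by
  rw [hco.1 g x i, h, h, h, h0]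
  fin_cases i <;> simp

include hco in
lemma linear_diag {g : Aff3} {ν : Fin 3 → ℝ} (h : ∀ i j, lin g i j = if i = j then ν i else 0)
    (x : E) (i : Fin 3) : g.linear x i = ν i * x i := by
  have h1 := (hco.2.2.2.2.2.2.2.2.1 g x)
  rw [h1]
  simp only [Matrix.mulVec, dotProduct, mat, Matrix.of_apply, Fin.sum_univ_three, h]
  fin_cases i <;> simp

include hco in
lemma apply_pow {g : Aff3} {ν : Fin 3 → ℝ} (h : ∀ i j, lin g i j = if i = j then ν i else 0)
    (h0 : ∀ i, tr g i = 0) (n : ℕ) (x : E) (i : Fin 3) : (g ^ n) x i = ν i ^ n * x i := by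
  induction n generalizing x with
  | zero => simp
  | succ n ih =>
    rw [pow_succ]
    show (g ^ n) (g x) i = _
    rw [ih, apply_diag hco h h0, pow_succ]
    ring

include hco in
lemma linear_pow {g : Aff3} {ν : Fin 3 → ℝ} (h : ∀ i j, lin g i j = if i = j then ν i else 0)
    (n : ℕ) (x : E) (i : Fin 3) : (g ^ n).linear x i = ν i ^ n * x i := by
  induction n generalizing x with
  | zero =>
    show x i = _
    simp
  | succ n ih =>
    rw [pow_succ]
    show (g ^ n).linear (g.linear x) i = _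
    rw [ih, linear_diag hco h, pow_succ]
    ring

/-- the translations of the group -/
def T (D : KData) : AddSubgroup E where
  carrier := {t | ∃ γ ∈ D.Γ, ∀ x, γ x = x + t}
  zero_mem' := ⟨1, D.Γ.one_mem, fun x => by simp⟩
  add_mem' := by
    rintro s t ⟨γ, hγ, h1⟩ ⟨δ, hδ, h2⟩
    refine ⟨γ * δ, D.Γ.mul_mem hγ hδ, fun x => ?_⟩
    show γ (δ x) = _
    rw [h2, h1]
    abel
  neg_mem' := by
    rintro t ⟨γ, hγ, h1⟩
    refine ⟨γ⁻¹, D.Γ.inv_mem hγ, fun x => ?_⟩
    have h2 := h1 (x + -t)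
    have h3 : γ⁻¹ (γ (x + -t)) = x + -t := AffineEquiv.symm_apply_apply γ _
    rw [h2] at h3
    simpa using h3

lemma T_linear (D : KData) {δ : Aff3} (hδ : δ ∈ D.Γ) {t : E} (ht : t ∈ T D) : δ.linear t ∈ T D := by
  obtain ⟨γ, hγ, h1⟩ := ht
  refine ⟨δ * γ * δ⁻¹, D.Γ.mul_mem (D.Γ.mul_mem hδ hγ) (D.Γ.inv_mem hδ), fun x => ?_⟩
  show δ (γ (δ⁻¹ x)) = _
  rw [h1]
  have h2 : δ (δ⁻¹ x + t) = δ (δ⁻¹ x) + δ.linear t := by
    have := δ.map_vadd (δ⁻¹ x) t
    simp only [vadd_eq_add] at this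
    rw [add_comm (δ⁻¹ x) t, this, add_comm]
  rw [h2]
  congr 1
  exact AffineEquiv.apply_symm_apply δ x

/-- `ℝ e₀` lies in the complement -/
lemma axis (hP : S_P1) (hcof : S_cof) (hF2 : S_F2) (hco : S_coord) (D : KData) (g : Aff3) (ν : Fin 3 → ℝ)
    (hg : g ∈ D.Γ) (hd : IsDiagSad g ν) (r : ℝ) : (![r, 0, 0] : E) ∈ D.K := by
  obtain ⟨h1, h0, hn2, hn21, hn1, hn0⟩ := hd
  have hν : ∀ i : Fin 3, i ≠ 0 → 0 ≤ ν i ∧ ν i < 1 := by
    intro i hi
    fin_cases i
    · exact absurd rfl hi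
    · exact ⟨by simpa using (hn2.trans hn21).le, by simpa using hn1⟩
    · exact ⟨by simpa using hn2.le, by simpa using hn21.trans hn1⟩
  have hcofin : Tendsto (fun n : ℕ => g ^ n) atTop cofinite := by
    refine hcof.1 _ ⟨0, 0, ?_⟩
    have : (fun n : ℕ => |lin (g ^ n) 0 0|) = fun n : ℕ => ν 0 ^ n := by
      funext n
      unfold lin
      rw [linear_pow hco h1]
      simp only [e, Pi.single_eq_same, mul_one]
      exact abs_of_pos (pow_pos (by linarith) n)
    rw [this]
    exact tendsto_pow_atTop_atTop_of_one_lt hn0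
  by_contra hK
  obtain ⟨a, ha, ha0⟩ := hF2 D ![1, 0, 0] 0 (by
    intro h
    have := congrFun h 0
    simp at this)
  have ha00 : a 0 = 0 := by simpa using ha0
  have hx : Tendsto (fun n : ℕ => (![(ν 0 ^ n)⁻¹ * r, a 1, a 2] : E)) atTop (𝓝 a) := by
    rw [tendsto_pi_nhds]
    intro i
    fin_cases i
    · show Tendsto (fun n : ℕ => (ν 0 ^ n)⁻¹ * r) atTop (𝓝 (a 0))
      rw [ha00]
      have h2 : Tendsto (fun n : ℕ => (ν 0 ^ n)⁻¹) atTop (𝓝 0) :=
        tendsto_inv_atTop_zero.comp (tendsto_pow_atTop_atTop_of_one_lt hn0)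
      simpa using h2.mul_const r
    · exact tendsto_const_nhds
    · exact tendsto_const_nhds
  have hy : Tendsto (fun n : ℕ => (g ^ n) (![(ν 0 ^ n)⁻¹ * r, a 1, a 2] : E)) atTop
      (𝓝 (![r, 0, 0])) := by
    rw [tendsto_pi_nhds]
    intro i
    have h3 : (fun n : ℕ => (g ^ n) (![(ν 0 ^ n)⁻¹ * r, a 1, a 2] : E) i) =
        fun n : ℕ => ν i ^ n * (![(ν 0 ^ n)⁻¹ * r, a 1, a 2] : E) i := by
      funext n
      exact apply_pow hco h1 h0 n _ i
    rw [h3]
    fin_cases i
    · show Tendsto (fun n : ℕ => ν 0 ^ n * ((ν 0 ^ n)⁻¹ * r)) atTop (𝓝 r)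
      have h4 : (fun n : ℕ => ν 0 ^ n * ((ν 0 ^ n)⁻¹ * r)) = fun _ => r := by
        funext n
        have : ν 0 ^ n ≠ 0 := (pow_pos (by linarith) n).ne'
        field_simp
      rw [h4]
      exact tendsto_const_nhds
    · show Tendsto (fun n : ℕ => ν 1 ^ n * a 1) atTop (𝓝 0)
      have := tendsto_pow_atTop_nhds_zero_of_lt_one (hν 1 (by decide)).1 (hν 1 (by decide)).2
      simpa using this.mul_const (a 1)
    · show Tendsto (fun n : ℕ => ν 2 ^ n * a 2) atTop (𝓝 0)
      have := tendsto_pow_atTop_nhds_zero_of_lt_one (hν 2 (by decide)).1 (hν 2 (by decide)).2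
      simpa using this.mul_const (a 2)
  rcases hP D (fun n => g ^ n) _ a _ (fun n => D.Γ.pow_mem hg n) hcofin hx hy with h | h
  · exact h ha
  · exact hK h

/-- **Module `trans`** -/
theorem trans (hco : S_coord) (hP : S_P1) (hcof : S_cof) (hF2 : S_F2) (hK : S_K) : S_trans := by
  intro D g ν hg hd hirr γ hγ hmat
  obtain ⟨h1, h0, hn2, hn21, hn1, hn0⟩ := hd
  have hax := axis hP hcof hF2 hco D g ν hg ⟨h1, h0, hn2, hn21, hn1, hn0⟩
  -- translations preserve the complement
  have hTK : ∀ t ∈ T D, ∀ x ∈ D.K, x + t ∈ D.K := by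
    rintro t ⟨δ, hδ, h2⟩ x hx
    rw [← h2]
    exact ((hK D).2 δ hδ x).2 hx
  have hγT : tr γ ∈ T D := by
    refine ⟨γ, hγ, fun x => ?_⟩
    funext i
    rw [hco.1 γ x i]
    have hl : ∀ j, lin γ i j = (1 : M3) i j := fun j => by rw [← hmat]; rfl
    rw [hl, hl, hl, Matrix.one_apply, Matrix.one_apply, Matrix.one_apply]
    fin_cases i <;> simp
  -- no translation moves the second coordinate
  have hno : ∀ t ∈ T D, t 1 = 0 := by
    intro t ht
    by_contra ht1
    have hν1 : 0 < ν 1 := hn2.trans hn21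
    have hplane : ∀ r s : ℝ, (![r, s, 0] : E) ∈ D.K := by
      intro r s
      let j : ℕ → ℤ := fun n => round (s / (ν 1 ^ n * t 1))
      have hmem : ∀ n, (j n) • ((g ^ n).linear t) ∈ T D := fun n =>
        (T D).zsmul_mem (T_linear D (D.Γ.pow_mem hg n) ht) (j n)
      have hpt : ∀ n, (![r, (j n : ℝ) * (ν 1 ^ n * t 1), (j n : ℝ) * (ν 2 ^ n * t 2)] : E) ∈ D.K := by
        intro n
        have h2 := hTK _ (hmem n) _ (hax (r - (j n : ℝ) * (ν 0 ^ n * t 0)))
        convert h2 using 1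
        funext i
        have h3 : ((j n) • ((g ^ n).linear t)) i = (j n : ℝ) * (ν i ^ n * t i) := by
          rw [Pi.smul_apply, linear_pow hco h1, zsmul_eq_mul]
        rw [Pi.add_apply, h3]
        fin_cases i <;> simp
      have hp1 : Tendsto (fun n : ℕ => ν 1 ^ n) atTop (𝓝 0) :=
        tendsto_pow_atTop_nhds_zero_of_lt_one hν1.le hn1
      have hs : Tendsto (fun n : ℕ => (j n : ℝ) * (ν 1 ^ n * t 1)) atTop (𝓝 s) := by
        rw [tendsto_iff_norm_sub_tendsto_zero]
        refine squeeze_zero (fun _ => norm_nonneg _) (g := fun n => ν 1 ^ n * |t 1|) (fun n => ?_) ?_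
        · have hne : ν 1 ^ n * t 1 ≠ 0 := mul_ne_zero (pow_pos hν1 n).ne' ht1
          have h4 := abs_sub_round (s / (ν 1 ^ n * t 1))
          have h5 : (j n : ℝ) * (ν 1 ^ n * t 1) - s =
              -((s / (ν 1 ^ n * t 1) - round (s / (ν 1 ^ n * t 1))) * (ν 1 ^ n * t 1)) := by
            show (round (s / (ν 1 ^ n * t 1)) : ℝ) * (ν 1 ^ n * t 1) - s = _
            field_simp
            ring
          rw [h5, norm_neg, norm_mul, Real.norm_eq_abs, Real.norm_eq_abs, abs_mul,
            abs_of_pos (pow_pos hν1 n)]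
          have h6 : 0 ≤ ν 1 ^ n * |t 1| := by positivity
          nlinarith
        · simpa using hp1.mul_const |t 1|
      have hq : Tendsto (fun n : ℕ => (j n : ℝ) * (ν 2 ^ n * t 2)) atTop (𝓝 0) := by
        have h4 : (fun n : ℕ => (j n : ℝ) * (ν 2 ^ n * t 2)) =
            fun n : ℕ => ((j n : ℝ) * (ν 1 ^ n * t 1)) * ((ν 2 / ν 1) ^ n * (t 2 / t 1)) := by
          funext n
          have : ν 1 ^ n ≠ 0 := (pow_pos hν1 n).ne'
          rw [div_pow]
          field_simp
        rw [h4]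
        have h5 : Tendsto (fun n : ℕ => (ν 2 / ν 1) ^ n) atTop (𝓝 0) :=
          tendsto_pow_atTop_nhds_zero_of_lt_one (div_nonneg hn2.le hν1.le)
            ((div_lt_one hν1).2 hn21)
        simpa using hs.mul (h5.mul_const (t 2 / t 1))
      have hlim : Tendsto (fun n : ℕ => (![r, (j n : ℝ) * (ν 1 ^ n * t 1),
          (j n : ℝ) * (ν 2 ^ n * t 2)] : E)) atTop (𝓝 ![r, s, 0]) := by
        rw [tendsto_pi_nhds]
        intro i
        fin_cases i
        · exact tendsto_const_nhds
        · exact hs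
        · exact hq
      exact (hK D).1.mem_of_tendsto hlim (Eventually.of_forall hpt)
    obtain ⟨x, hx, hx2⟩ := hF2 D ![0, 0, 1] 0 (by
      intro h
      have := congrFun h 2
      simp at this)
    have hx20 : x 2 = 0 := by simpa using hx2
    have h7 := hplane (x 0) (x 1)
    have h8 : (![x 0, x 1, 0] : E) = x := by
      funext i
      fin_cases i
      · rfl
      · rfl
      · exact hx20.symm
    rw [h8] at h7
    exact h7 hx
  -- the span of the translations
  have hspan := hirr (Submodule.span ℝ (T D : Set E)) (by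
    intro δ hδ u hu
    have h2 : Submodule.span ℝ (T D : Set E) ≤
        (Submodule.span ℝ (T D : Set E)).comap (δ.linear : E →ₗ[ℝ] E) := by
      rw [Submodule.span_le]
      intro t ht
      exact Submodule.subset_span (T_linear D hδ ht)
    exact h2 hu)
  have htr : tr γ = 0 := by
    rcases hspan with h | h
    · have h2 : tr γ ∈ Submodule.span ℝ (T D : Set E) := Submodule.subset_span hγT
      rw [h] at h2
      exact h2
    · exfalso
      have h2 : Submodule.span ℝ (T D : Set E) ≤ LinearMap.ker (LinearMap.proj 1 : E →ₗ[ℝ] ℝ) := by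
        rw [Submodule.span_le]
        intro t ht
        exact hno t ht
      have h3 : (e 1 : E) ∈ Submodule.span ℝ (T D : Set E) := by
        rw [h]
        trivial
      have h4 := h2 h3
      have h5 : (e 1 : E) 1 = 0 := h4
      simp [e] at h5
  refine hco.2.2.2.1 γ 1 (fun i j => ?_) fun i => ?_
  · have e1 : lin γ i j = mat γ i j := rfl
    have e2 : lin (1 : Aff3) i j = mat 1 i j := rfl
    rw [e1, e2, hmat, hco.2.2.2.2.2.1]
  · have e1 : tr γ i = 0 := congrFun htr i
    rw [e1]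
    rfl

end Pool.Agent.Helper13.K3.trans
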