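import Pool.Agent.Helper77.K3.DefsII
import Pool.Agent.Helper13.K3.trans

/-!
# K3, module `T1a`
-/

set_option autoImplicit false

open Set Filter Topology

namespace Pool.Agent.Helper13.K3.T1a

open Pool.Agent.Helper77.K3

lemma vec_eta (p : E) : p = ![p 0, p 1, p 2] := by
  funext i
  fin_cases i <;> rfl

/-- action of a triangular element with last eigenvalue one and no `z`-translation -/
lemma act (hco : S_coord) {h : Aff3} (ht : IsTri h) (h22 : lin h 2 2 = 1) (htr : tr h 2 = 0)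
    (x y z : ℝ) : h ![x, y, z] =
      ![lin h 0 0 * x + lin h 0 1 * y + lin h 0 2 * z + tr h 0, lin h 1 1 * y + lin h 1 2 * z + tr h 1, z] := by
  funext i
  rw [hco.1 h _ i]
  fin_cases i
  · simp
  · simp [ht.1]
  · simp [ht.2.1, ht.2.2.1, h22, htr]

/-- continuity helper -/
lemma tendsto_vec {x y z : ℕ → ℝ} {a b c : ℝ} (hx : Tendsto x atTop (𝓝 a)) (hy : Tendsto y atTop (𝓝 b))
    (hz : Tendsto z atTop (𝓝 c)) : Tendsto (fun n => (![x n, y n, z n] : E)) atTop (𝓝 ![a, b, c]) := by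
  rw [tendsto_pi_nhds]
  intro i
  fin_cases i
  · exact hx
  · exact hy
  · exact hz

lemma cof_pow (hcof : S_cof) (hco : S_coord) {h : Aff3} (ht : IsTri h) (h1 : 1 < lin h 0 0) :
    Tendsto (fun n : ℕ => h ^ n) atTop cofinite := by
  refine hcof.1 _ ⟨0, 0, ?_⟩
  have key : ∀ n : ℕ, lin (h ^ n) 0 0 = lin h 0 0 ^ n ∧ lin (h ^ n) 1 0 = 0 ∧ lin (h ^ n) 2 0 = 0 := by
    intro n
    induction n with
    | zero =>
      refine ⟨?_, ?_, ?_⟩
      · show (e 0 : E) 0 = _
        simp [e]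
      · show (e 0 : E) 1 = _
        simp [e]
      · show (e 0 : E) 2 = _
        simp [e]
    | succ n ih =>
      rw [pow_succ']
      obtain ⟨i1, i2, i3⟩ := ih
      refine ⟨?_, ?_, ?_⟩
      · rw [hco.2.1, i1, i2, i3, pow_succ]
        ring
      · rw [hco.2.1, i1, i2, i3, ht.1]
        ring
      · rw [hco.2.1, i1, i2, i3, ht.2.1]
        ring
  have : (fun n : ℕ => |lin (h ^ n) 0 0|) = fun n : ℕ => lin h 0 0 ^ n := by
    funext n
    rw [(key n).1]
    exact abs_of_pos (pow_pos (by linarith) n)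
  rw [this]
  exact tendsto_pow_atTop_atTop_of_one_lt h1

/-- one of the two invariant lines of each leaf lies in the complement -/
lemma lines (hco : S_coord) (hP : S_P1) (hcof : S_cof) (D : KData) {h : Aff3} (hh : h ∈ D.Γ)
    (ht : IsTri h) (h22 : lin h 2 2 = 1) (htr : tr h 2 = 0) (hl : 1 < lin h 0 0) (w0 : ℝ) (q0 q1 : ℝ)
    (z : ℝ) (e1 : lin h 0 0 * w0 + lin h 0 1 = lin h 1 1 * w0)
    (e2 : lin h 0 0 * q0 + lin h 0 1 * q1 + lin h 0 2 * z + tr h 0 = q0)
    (e3 : lin h 1 1 * q1 + lin h 1 2 * z + tr h 1 = q1) :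
    (∀ r : ℝ, (![q0 + r * w0, q1 + r, z] : E) ∈ D.K) ∨ (∀ s : ℝ, (![s, q1, z] : E) ∈ D.K) := by
  have hdet : lin h 0 0 * lin h 1 1 = 1 := by
    have := ht.2.2.2.2.2.2
    rw [h22, mul_one] at this
    exact this
  have hμ0 : 0 < lin h 1 1 := ht.2.2.2.2.1
  have hμ1 : lin h 1 1 < 1 := by nlinarith
  have hpow : ∀ (n : ℕ) (s r : ℝ), (h ^ n) ![q0 + s + r * w0, q1 + r, z] =
      ![q0 + lin h 0 0 ^ n * s + lin h 1 1 ^ n * r * w0, q1 + lin h 1 1 ^ n * r, z] := by
    intro n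
    induction n with
    | zero =>
      intro s r
      simp
    | succ n ih =>
      intro s r
      rw [pow_succ]
      show (h ^ n) (h _) = _
      rw [act hco ht h22 htr]
      have e4 : lin h 0 0 * (q0 + s + r * w0) + lin h 0 1 * (q1 + r) + lin h 0 2 * z + tr h 0 =
          q0 + lin h 0 0 * s + lin h 1 1 * r * w0 := by
        linear_combination e2 + r * e1
      have e5 : lin h 1 1 * (q1 + r) + lin h 1 2 * z + tr h 1 = q1 + lin h 1 1 * r := by
        linear_combination e3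
      rw [e4, e5, ih]
      congr 1
      · rw [pow_succ, pow_succ]; ring
      · congr 1
        rw [pow_succ]; ring
  by_contra hcon
  push Not at hcon
  obtain ⟨⟨r, hr⟩, s', hs'⟩ := hcon
  set s := s' - q0 with hs
  have hpμ : Tendsto (fun n : ℕ => lin h 1 1 ^ n) atTop (𝓝 0) :=
    tendsto_pow_atTop_nhds_zero_of_lt_one hμ0.le hμ1
  have hx : Tendsto (fun n : ℕ => (![q0 + lin h 1 1 ^ n * s + r * w0, q1 + r, z] : E)) atTop
      (𝓝 ![q0 + r * w0, q1 + r, z]) := by
    refine tendsto_vec ?_ tendsto_const_nhds tendsto_const_nhds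
    have := ((hpμ.mul_const s).const_add q0).add_const (r * w0)
    simpa using this
  have hy : Tendsto (fun n : ℕ => (h ^ n) (![q0 + lin h 1 1 ^ n * s + r * w0, q1 + r, z] : E)) atTop
      (𝓝 ![s', q1, z]) := by
    have h4 : (fun n : ℕ => (h ^ n) (![q0 + lin h 1 1 ^ n * s + r * w0, q1 + r, z] : E)) =
        fun n : ℕ => ![s' + lin h 1 1 ^ n * r * w0, q1 + lin h 1 1 ^ n * r, z] := by
      funext n
      rw [hpow]
      have e6 : lin h 0 0 ^ n * (lin h 1 1 ^ n * s) = s := by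
        rw [← mul_assoc, ← mul_pow, hdet, one_pow, one_mul]
      rw [e6, hs]
      congr 2
      ring
    rw [h4]
    refine tendsto_vec ?_ ?_ tendsto_const_nhds
    · have := ((hpμ.mul_const r).mul_const w0).const_add s'
      simpa using this
    · have := (hpμ.mul_const r).const_add q1
      simpa using this
  rcases hP D (fun n => h ^ n) _ _ _ (fun n => D.Γ.pow_mem hh n) (cof_pow hcof hco ht hl) hx hy with h | h
  · exact hr h
  · exact hs' h

/-- powers of the normalised element -/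
lemma pow_norm (hco : S_coord) {g : Aff3} (ht : IsTri g) (h22 : lin g 2 2 = 1) (h01 : lin g 0 1 = 0)
    (h02 : lin g 0 2 = 0) (h12 : lin g 1 2 = 0) (htr : ∀ i, tr g i = 0) (n : ℕ) (x y z : ℝ) :
    (g ^ n) ![x, y, z] = ![lin g 0 0 ^ n * x, lin g 1 1 ^ n * y, z] := by
  induction n generalizing x y with
  | zero => simp
  | succ n ih =>
    rw [pow_succ]
    show (g ^ n) (g _) = _
    rw [act hco ht h22 (htr 2), h01, h02, h12, htr 0, htr 1]
    have e1 : lin g 0 0 * x + 0 * y + 0 * z + 0 = lin g 0 0 * x := by ring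
    have e2 : lin g 1 1 * y + 0 * z + 0 = lin g 1 1 * y := by ring
    rw [e1, e2, ih, pow_succ, pow_succ, mul_assoc, mul_assoc]

lemma plane_false (hF2 : S_F2) (D : KData) (a b c d : ℝ) (hne : a ≠ 0 ∨ b ≠ 0 ∨ c ≠ 0)
    (h : ∀ x y z : ℝ, a * x + b * y + c * z = d → (![x, y, z] : E) ∈ D.K) : False := by
  obtain ⟨p, hp, hp2⟩ := hF2 D ![a, b, c] d (by
    intro h0
    have h1 := congrFun h0 0
    have h2 := congrFun h0 1
    have h3 := congrFun h0 2
    simp at h1 h2 h3
    rcases hne with h | h | h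
    · exact h h1
    · exact h h2
    · exact h h3)
  have h3 : a * p 0 + b * p 1 + c * p 2 = d := by simpa using hp2
  have h4 := h _ _ _ h3
  rw [← vec_eta p] at h4
  exact h4 hp

/-- step (B): elements with the same eigenvalue have the same contracted direction -/
lemma stepB (hco : S_coord) (hP : S_P1) (hcof : S_cof) (hF2 : S_F2) (hK : S_K) (D : KData)
    {g : Aff3} (hg : g ∈ D.Γ) (htg : IsTri g) (h22 : lin g 2 2 = 1) (h01 : lin g 0 1 = 0)
    (h02 : lin g 0 2 = 0) (h12 : lin g 1 2 = 0) (htr : ∀ i, tr g i = 0) (hl : 1 < lin g 0 0)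
    {h : Aff3} (hh : h ∈ D.Γ) (ht : IsTri h) (hh22 : lin h 2 2 = 1) (hhtr : tr h 2 = 0)
    (hhl : 1 < lin h 0 0) : lin h 0 1 = 0 := by
  by_contra ha
  have hgdet : lin g 0 0 * lin g 1 1 = 1 := by
    have := htg.2.2.2.2.2.2
    rw [h22, mul_one] at this
    exact this
  have hgμ0 : 0 < lin g 1 1 := htg.2.2.2.2.1
  have hgμ1 : lin g 1 1 < 1 := by nlinarith
  have hdet : lin h 0 0 * lin h 1 1 = 1 := by
    have := ht.2.2.2.2.2.2
    rw [hh22, mul_one] at this
    exact this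
  have hμ0 : 0 < lin h 1 1 := ht.2.2.2.2.1
  have hμ1 : lin h 1 1 < 1 := by nlinarith
  have hd1 : lin h 0 0 - lin h 1 1 ≠ 0 := by
    intro h0
    linarith
  have hd2 : 1 - lin h 1 1 ≠ 0 := by
    intro h0
    linarith
  have hd3 : lin h 0 0 - 1 ≠ 0 := by
    intro h0
    linarith
  have hpμ : Tendsto (fun n : ℕ => lin g 1 1 ^ n) atTop (𝓝 0) :=
    tendsto_pow_atTop_nhds_zero_of_lt_one hgμ0.le hgμ1
  have hinv : ∀ n : ℕ, lin g 0 0 ^ n * lin g 1 1 ^ n = 1 := fun n => by
    rw [← mul_pow, hgdet, one_pow]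
  set w0 : ℝ := -lin h 0 1 / (lin h 0 0 - lin h 1 1) with hw0
  have hw0' : w0 ≠ 0 := div_ne_zero (neg_ne_zero.2 ha) hd1
  have hpw : ∀ n : ℕ, ∀ x ∈ D.K, (g ^ n) x ∈ D.K := fun n x hx =>
    ((hK D).2 _ (D.Γ.pow_mem hg n) x).2 hx
  refine plane_false hF2 D 0 1 0 0 (Or.inr (Or.inl one_ne_zero)) ?_
  intro σ y z hy
  have hy0 : y = 0 := by linarith
  subst hy0
  set q1 : ℝ := (lin h 1 2 * z + tr h 1) / (1 - lin h 1 1) with hq1
  set q0 : ℝ := -(lin h 0 1 * q1 + lin h 0 2 * z + tr h 0) / (lin h 0 0 - 1) with hq0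
  have key := lines hco hP hcof D hh ht hh22 hhtr hhl w0 q0 q1 z (by
    rw [hw0]; field_simp; ring) (by
    rw [hq0]; field_simp; ring) (by
    rw [hq1]; field_simp; ring)
  rcases key with key | key
  · -- the line in direction w
    let r : ℕ → ℝ := fun n => (lin g 1 1 ^ n * σ - q0) / w0
    have hmem : ∀ n : ℕ, (![σ, lin g 1 1 ^ n * (q1 + r n), z] : E) ∈ D.K := by
      intro n
      have h1 := hpw n _ (key (r n))
      rw [pow_norm hco htg h22 h01 h02 h12 htr] at h1
      have e1 : lin g 0 0 ^ n * (q0 + r n * w0) = σ := by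
        have : r n * w0 = lin g 1 1 ^ n * σ - q0 := by
          show (lin g 1 1 ^ n * σ - q0) / w0 * w0 = _
          field_simp
        rw [this]
        linear_combination σ * hinv n
      rw [e1] at h1
      exact h1
    refine (hK D).1.mem_of_tendsto (tendsto_vec tendsto_const_nhds ?_ tendsto_const_nhds)
      (Eventually.of_forall hmem)
    have h2 : Tendsto r atTop (𝓝 ((0 * σ - q0) / w0)) :=
      ((hpμ.mul_const σ).sub_const q0).div_const w0
    simpa using hpμ.mul (h2.const_add q1)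
  · have hmem : ∀ n : ℕ, (![σ, lin g 1 1 ^ n * q1, z] : E) ∈ D.K := by
      intro n
      have h1 := hpw n _ (key (lin g 1 1 ^ n * σ))
      rw [pow_norm hco htg h22 h01 h02 h12 htr] at h1
      have e1 : lin g 0 0 ^ n * (lin g 1 1 ^ n * σ) = σ := by
        rw [← mul_assoc, hinv, one_mul]
      rw [e1] at h1
      exact h1
    refine (hK D).1.mem_of_tendsto (tendsto_vec tendsto_const_nhds ?_ tendsto_const_nhds)
      (Eventually.of_forall hmem)
    simpa using hpμ.mul_const q1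

/-- the normalised case -/
lemma main_norm (hco : S_coord) (hP : S_P1) (hcof : S_cof) (hF1 : S_F1) (hF2 : S_F2) (hK : S_K)
    (D : KData) (htri : D.Tri) (hone : ∀ γ ∈ D.Γ, lin γ 2 2 = 1)
    {g : Aff3} (hg : g ∈ D.Γ) (h01 : lin g 0 1 = 0)
    (h02 : lin g 0 2 = 0) (h12 : lin g 1 2 = 0) (htr : ∀ i, tr g i = 0) (hl : 1 < lin g 0 0) : False := by
  have htg := htri g hg
  have h22 := hone g hg
  have hgdet : lin g 0 0 * lin g 1 1 = 1 := by
    have := htg.2.2.2.2.2.2
    rw [h22, mul_one] at this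
    exact this
  have hgμ0 : 0 < lin g 1 1 := htg.2.2.2.2.1
  have hgμ1 : lin g 1 1 < 1 := by nlinarith
  have hpμ : Tendsto (fun n : ℕ => lin g 1 1 ^ n) atTop (𝓝 0) :=
    tendsto_pow_atTop_nhds_zero_of_lt_one hgμ0.le hgμ1
  have hinv : ∀ n : ℕ, lin g 0 0 ^ n * lin g 1 1 ^ n = 1 := fun n => by
    rw [← mul_pow, hgdet, one_pow]
  have hg1 : ∀ x y z : ℝ, g ![x, y, z] = ![lin g 0 0 * x, lin g 1 1 * y, z] := by
    intro x y z
    have := pow_norm hco htg h22 h01 h02 h12 htr 1 x y z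
    simpa using this
  -- some conjugate of `g` is different from `g`
  obtain ⟨h, hh, hne⟩ : ∃ h ∈ D.Γ, h * g * h⁻¹ ≠ g := by
    by_contra hcon
    push Not at hcon
    have huniv := hF1 D {p : E | g p = p} ?_ ⟨0, ?_⟩ ?_
    · have h1 : (![1, 0, 0] : E) ∈ {p : E | g p = p} := by
        rw [huniv]
        trivial
      have h2 : g ![1, 0, 0] = ![1, 0, 0] := h1
      rw [hg1] at h2
      have h3 := congrFun h2 0
      simp at h3
      linarith
    · have h1 : {p : E | g p = p} = {p : E | p 0 = 0 ∧ p 1 = 0} := by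
        ext p
        constructor
        · intro hp
          have h2 : g p = p := hp
          rw [vec_eta p, hg1] at h2
          have h3 : lin g 0 0 * p 0 = p 0 := congrFun h2 0
          have h4 : lin g 1 1 * p 1 = p 1 := congrFun h2 1
          have h5 : (lin g 0 0 - 1) * p 0 = 0 := by linear_combination h3
          have h6 : (lin g 1 1 - 1) * p 1 = 0 := by linear_combination h4
          constructor
          · rcases mul_eq_zero.1 h5 with h7 | h7
            · linarith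
            · exact h7
          · rcases mul_eq_zero.1 h6 with h7 | h7
            · linarith
            · exact h7
        · rintro ⟨hp0, hp1⟩
          show g p = p
          rw [vec_eta p, hg1, hp0, hp1]
          simp
      rw [h1]
      intro p hp q hq a b _ _ _
      refine ⟨?_, ?_⟩
      · show a * p 0 + b * q 0 = 0
        rw [hp.1, hq.1]
        ring
      · show a * p 1 + b * q 1 = 0
        rw [hp.2, hq.2]
        ring
    · show g 0 = 0
      rw [vec_eta (0 : E), hg1]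
      simp
    · intro γ hγ x hx
      have h1 := hcon γ hγ
      have h2 : γ * g = g * γ := mul_inv_eq_iff_eq_mul.1 h1
      show g (γ x) = γ x
      have h3 : (g * γ) x = (γ * g) x := by rw [h2]
      have h4 : g x = x := hx
      calc g (γ x) = (g * γ) x := rfl
        _ = (γ * g) x := h3
        _ = γ (g x) := rfl
        _ = γ x := by rw [h4]
  -- the conjugate
  set δ : Aff3 := h * g * h⁻¹ with hδ
  have hδΓ : δ ∈ D.Γ := D.Γ.mul_mem (D.Γ.mul_mem hh hg) (D.Γ.inv_mem hh)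
  have htδ := htri δ hδΓ
  have hδ22 := hone δ hδΓ
  have hz : ∀ γ ∈ D.Γ, ∀ p : E, γ p 2 = p 2 + tr γ 2 := by
    intro γ hγ p
    have ht := htri γ hγ
    rw [hco.1 γ p 2, ht.2.1, ht.2.2.1, hone γ hγ]
    ring
  have hδtr : tr δ 2 = 0 := by
    show (h (g (h⁻¹ 0))) 2 = 0
    rw [hz h hh, hz g hg, htr 2, add_zero, ← hz h hh]
    have : h (h⁻¹ (0 : E)) = 0 := AffineEquiv.apply_symm_apply h 0
    rw [this]
    rfl
  have h00 : ∀ a b : Aff3, IsTri b → lin (a * b) 0 0 = lin a 0 0 * lin b 0 0 := by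
    intro a b hb
    rw [hco.2.1, hb.1, hb.2.1]
    ring
  have hδl : lin δ 0 0 = lin g 0 0 := by
    rw [hδ, h00 _ _ (htri _ (D.Γ.inv_mem hh)), h00 _ _ htg]
    have h1 : lin (h * h⁻¹) 0 0 = lin h 0 0 * lin h⁻¹ 0 0 := h00 _ _ (htri _ (D.Γ.inv_mem hh))
    rw [mul_inv_cancel] at h1
    have h2 : lin (1 : Aff3) 0 0 = 1 := by
      show (e 0 : E) 0 = 1
      simp [e]
    rw [h2] at h1
    linear_combination -lin g 0 0 * h1
  have hδdet : lin δ 0 0 * lin δ 1 1 = 1 := by
    have := htδ.2.2.2.2.2.2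
    rw [hδ22, mul_one] at this
    exact this
  have hδm : lin δ 1 1 = lin g 1 1 := by
    have h1 : lin g 0 0 ≠ 0 := by
      intro h0
      linarith
    apply mul_left_cancel₀ h1
    rw [hgdet, ← hδl, hδdet]
  have hδ01 : lin δ 0 1 = 0 :=
    stepB hco hP hcof hF2 hK D hg htg h22 h01 h02 h12 htr hl hδΓ htδ hδ22 hδtr (by rw [hδl]; exact hl)
  set b := lin δ 0 2 with hb
  set c := lin δ 1 2 with hc
  set t0 := tr δ 0 with ht0
  set t1 := tr δ 1 with ht1
  have hginv : ∀ n : ℕ, ∀ x y z : ℝ, (g ^ n)⁻¹ ![x, y, z] =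
      ![lin g 1 1 ^ n * x, lin g 0 0 ^ n * y, z] := by
    intro n x y z
    have h1 : (g ^ n) ![lin g 1 1 ^ n * x, lin g 0 0 ^ n * y, z] = ![x, y, z] := by
      rw [pow_norm hco htg h22 h01 h02 h12 htr, ← mul_assoc, ← mul_assoc, hinv,
        mul_comm (lin g 1 1 ^ n), hinv, one_mul, one_mul]
    rw [← h1]
    exact AffineEquiv.symm_apply_apply (g ^ n) _
  set τ : Aff3 := δ * g⁻¹ with hτ
  have hτΓ : τ ∈ D.Γ := D.Γ.mul_mem hδΓ (D.Γ.inv_mem hg)
  have hτact : ∀ x y z : ℝ, τ ![x, y, z] = ![x + (b * z + t0), y + (c * z + t1), z] := by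
    intro x y z
    show δ (g⁻¹ _) = _
    have h1 := hginv 1 x y z
    rw [pow_one, pow_one, pow_one] at h1
    rw [h1, act hco htδ hδ22 hδtr, hδ01, hδl, hδm]
    have e1 : lin g 0 0 * (lin g 1 1 * x) + 0 * (lin g 0 0 * y) + b * z + t0 = x + (b * z + t0) := by
      linear_combination x * hgdet
    have e2 : lin g 1 1 * (lin g 0 0 * y) + c * z + t1 = y + (c * z + t1) := by
      linear_combination y * hgdet
    rw [e1, e2]
  have hτne : ¬ (b = 0 ∧ t0 = 0 ∧ c = 0 ∧ t1 = 0) := by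
    rintro ⟨h1, h2, h3, h4⟩
    apply hne
    have h5 : τ = 1 := by
      ext1 p
      rw [vec_eta p, hτact, h1, h2, h3, h4]
      show _ = ![p 0, p 1, p 2]
      simp
    rw [hτ] at h5
    exact mul_inv_eq_one.1 h5
  -- conjugates by powers of `g`
  have hσact : ∀ n : ℕ, ∀ x y z : ℝ, (g ^ n * τ * (g ^ n)⁻¹) ![x, y, z] =
      ![x + lin g 0 0 ^ n * (b * z + t0), y + lin g 1 1 ^ n * (c * z + t1), z] := by
    intro n x y z
    show (g ^ n) (τ ((g ^ n)⁻¹ _)) = _
    rw [hginv, hτact, pow_norm hco htg h22 h01 h02 h12 htr]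
    have e1 : lin g 0 0 ^ n * (lin g 1 1 ^ n * x + (b * z + t0)) =
        x + lin g 0 0 ^ n * (b * z + t0) := by linear_combination x * hinv n
    have e2 : lin g 1 1 ^ n * (lin g 0 0 ^ n * y + (c * z + t1)) =
        y + lin g 1 1 ^ n * (c * z + t1) := by linear_combination y * hinv n
    rw [e1, e2]
  have hρact : ∀ n : ℕ, ∀ x y z : ℝ, ((g ^ n)⁻¹ * τ * g ^ n) ![x, y, z] =
      ![x + lin g 1 1 ^ n * (b * z + t0), y + lin g 0 0 ^ n * (c * z + t1), z] := by
    intro n x y z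
    show (g ^ n)⁻¹ (τ ((g ^ n) _)) = _
    rw [pow_norm hco htg h22 h01 h02 h12 htr, hτact, hginv]
    have e1 : lin g 1 1 ^ n * (lin g 0 0 ^ n * x + (b * z + t0)) =
        x + lin g 1 1 ^ n * (b * z + t0) := by linear_combination x * hinv n
    have e2 : lin g 0 0 ^ n * (lin g 1 1 ^ n * y + (c * z + t1)) =
        y + lin g 0 0 ^ n * (c * z + t1) := by linear_combination y * hinv n
    rw [e1, e2]
  have hLinj : ∀ n m : ℕ, n ≠ m → lin g 0 0 ^ n ≠ lin g 0 0 ^ m := by
    intro n m hnm h1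
    exact hnm (pow_right_injective₀ (by linarith) (by linarith) h1)
  have hμinj : ∀ n m : ℕ, n ≠ m → lin g 1 1 ^ n ≠ lin g 1 1 ^ m := by
    intro n m hnm h1
    refine hLinj n m hnm ?_
    have h2 := hinv n
    have h3 := hinv m
    rw [h1] at h2
    have h4 : lin g 1 1 ^ m ≠ 0 := (pow_pos hgμ0 m).ne'
    exact mul_right_cancel₀ h4 (h2.trans h3.symm)
  have hsep : ∀ (s s' r r' : ℝ), s ≠ s' → r ≠ r' →
      (∀ z, s * (b * z + t0) = s' * (b * z + t0)) → (∀ z, r * (c * z + t1) = r' * (c * z + t1)) → False := by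
    intro s s' r r' hs hr h1 h2
    apply hτne
    have e1 : ∀ z, b * z + t0 = 0 := by
      intro z
      have : (s - s') * (b * z + t0) = 0 := by linear_combination h1 z
      rcases mul_eq_zero.1 this with h | h
      · exact absurd (sub_eq_zero.1 h) hs
      · exact h
    have e2 : ∀ z, c * z + t1 = 0 := by
      intro z
      have : (r - r') * (c * z + t1) = 0 := by linear_combination h2 z
      rcases mul_eq_zero.1 this with h | h
      · exact absurd (sub_eq_zero.1 h) hr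
      · exact h
    have e3 := e1 0
    have e4 := e1 1
    have e5 := e2 0
    have e6 := e2 1
    refine ⟨?_, ?_, ?_, ?_⟩ <;> linarith
  have hσcof : Tendsto (fun n : ℕ => g ^ n * τ * (g ^ n)⁻¹) atTop cofinite := by
    rw [← Nat.cofinite_eq_atTop]
    apply Function.Injective.tendsto_cofinite
    intro n m hnm
    by_contra hne'
    refine hsep _ _ _ _ (hLinj n m hne') (hμinj n m hne') (fun z => ?_) fun z => ?_
    · have h1 : (g ^ n * τ * (g ^ n)⁻¹) ![0, 0, z] = (g ^ m * τ * (g ^ m)⁻¹) ![0, 0, z] := by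
        have h2 : g ^ n * τ * (g ^ n)⁻¹ = g ^ m * τ * (g ^ m)⁻¹ := hnm
        rw [h2]
      rw [hσact, hσact] at h1
      have h3 : 0 + lin g 0 0 ^ n * (b * z + t0) = 0 + lin g 0 0 ^ m * (b * z + t0) := congrFun h1 0
      linarith
    · have h1 : (g ^ n * τ * (g ^ n)⁻¹) ![0, 0, z] = (g ^ m * τ * (g ^ m)⁻¹) ![0, 0, z] := by
        have h2 : g ^ n * τ * (g ^ n)⁻¹ = g ^ m * τ * (g ^ m)⁻¹ := hnm
        rw [h2]
      rw [hσact, hσact] at h1
      have h3 : 0 + lin g 1 1 ^ n * (c * z + t1) = 0 + lin g 1 1 ^ m * (c * z + t1) := congrFun h1 1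
      linarith
  have hρcof : Tendsto (fun n : ℕ => (g ^ n)⁻¹ * τ * g ^ n) atTop cofinite := by
    rw [← Nat.cofinite_eq_atTop]
    apply Function.Injective.tendsto_cofinite
    intro n m hnm
    by_contra hne'
    refine hsep _ _ _ _ (hμinj n m hne') (hLinj n m hne') (fun z => ?_) fun z => ?_
    · have h1 : ((g ^ n)⁻¹ * τ * g ^ n) ![0, 0, z] = ((g ^ m)⁻¹ * τ * g ^ m) ![0, 0, z] := by
        have h2 : (g ^ n)⁻¹ * τ * g ^ n = (g ^ m)⁻¹ * τ * g ^ m := hnm
        rw [h2]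
      rw [hρact, hρact] at h1
      have h3 : 0 + lin g 1 1 ^ n * (b * z + t0) = 0 + lin g 1 1 ^ m * (b * z + t0) := congrFun h1 0
      linarith
    · have h1 : ((g ^ n)⁻¹ * τ * g ^ n) ![0, 0, z] = ((g ^ m)⁻¹ * τ * g ^ m) ![0, 0, z] := by
        have h2 : (g ^ n)⁻¹ * τ * g ^ n = (g ^ m)⁻¹ * τ * g ^ m := hnm
        rw [h2]
      rw [hρact, hρact] at h1
      have h3 : 0 + lin g 0 0 ^ n * (c * z + t1) = 0 + lin g 0 0 ^ m * (c * z + t1) := congrFun h1 1
      linarith
  have hX : ∀ z0 : ℝ, b * z0 + t0 ≠ 0 := by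
    intro z0 hz0
    refine plane_false hF2 D 0 0 1 z0 (Or.inr (Or.inr one_ne_zero)) ?_
    intro x y z hzz
    have hzz0 : z = z0 := by linarith
    subst hzz0
    have hlim : Tendsto (fun n : ℕ => (g ^ n * τ * (g ^ n)⁻¹) (![x, y, z] : E)) atTop (𝓝 ![x, y, z]) := by
      have h1 : (fun n : ℕ => (g ^ n * τ * (g ^ n)⁻¹) (![x, y, z] : E)) =
          fun n : ℕ => ![x, y + lin g 1 1 ^ n * (c * z + t1), z] := by
        funext n
        rw [hσact, hz0, mul_zero, add_zero]
      rw [h1]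
      refine tendsto_vec tendsto_const_nhds ?_ tendsto_const_nhds
      simpa using (hpμ.mul_const (c * z + t1)).const_add y
    rcases hP D _ (fun _ => ![x, y, z]) _ _ (fun n => D.Γ.mul_mem (D.Γ.mul_mem (D.Γ.pow_mem hg n) hτΓ)
      (D.Γ.inv_mem (D.Γ.pow_mem hg n))) hσcof tendsto_const_nhds hlim with h | h <;> exact h
  have hY : ∀ z0 : ℝ, c * z0 + t1 ≠ 0 := by
    intro z0 hz0
    refine plane_false hF2 D 0 0 1 z0 (Or.inr (Or.inr one_ne_zero)) ?_
    intro x y z hzz
    have hzz0 : z = z0 := by linarith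
    subst hzz0
    have hlim : Tendsto (fun n : ℕ => ((g ^ n)⁻¹ * τ * g ^ n) (![x, y, z] : E)) atTop (𝓝 ![x, y, z]) := by
      have h1 : (fun n : ℕ => ((g ^ n)⁻¹ * τ * g ^ n) (![x, y, z] : E)) =
          fun n : ℕ => ![x + lin g 1 1 ^ n * (b * z + t0), y, z] := by
        funext n
        rw [hρact, hz0, mul_zero, add_zero]
      rw [h1]
      refine tendsto_vec ?_ tendsto_const_nhds tendsto_const_nhds
      simpa using (hpμ.mul_const (b * z + t0)).const_add x
    rcases hP D _ (fun _ => ![x, y, z]) _ _ (fun n => D.Γ.mul_mem (D.Γ.mul_mem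
      (D.Γ.inv_mem (D.Γ.pow_mem hg n)) hτΓ) (D.Γ.pow_mem hg n)) hρcof tendsto_const_nhds hlim with h | h <;>
      exact h
  have hb0 : b = 0 := by
    by_contra hb0
    refine hX (-t0 / b) ?_
    field_simp
    ring
  have hc0 : c = 0 := by
    by_contra hc0
    refine hY (-t1 / c) ?_
    field_simp
    ring
  have ht1 : t1 ≠ 0 := by
    have := hY 0
    simpa using this
  -- a leaf with a full line
  obtain ⟨z0, hz0⟩ : ∃ z0 : ℝ, ∀ s : ℝ, (![s, 0, z0] : E) ∈ D.K := by
    by_contra hcon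
    push Not at hcon
    refine plane_false hF2 D 1 0 0 0 (Or.inl one_ne_zero) ?_
    intro x y z hx
    have hx0 : x = 0 := by linarith
    subst hx0
    rcases lines hco hP hcof D hg htg h22 (htr 2) hl 0 0 0 z (by rw [h01]; ring)
      (by rw [h01, h02, htr 0]; ring) (by rw [h12, htr 1]; ring) with h | h
    · have := h y
      simpa using this
    · obtain ⟨s, hs⟩ := hcon z
      exact absurd (h s) hs
  have hTmem : ∀ n : ℕ, (![lin g 0 0 ^ n * t0, lin g 1 1 ^ n * t1, 0] : E) ∈ trans.T D := by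
    intro n
    refine ⟨g ^ n * τ * (g ^ n)⁻¹, D.Γ.mul_mem (D.Γ.mul_mem (D.Γ.pow_mem hg n) hτΓ)
      (D.Γ.inv_mem (D.Γ.pow_mem hg n)), fun p => ?_⟩
    rw [vec_eta p, hσact, hb0, hc0]
    funext i
    fin_cases i <;> simp
  have hTK : ∀ t ∈ trans.T D, ∀ x ∈ D.K, x + t ∈ D.K := by
    rintro t ⟨γ, hγ, h2⟩ x hx
    rw [← h2]
    exact ((hK D).2 γ hγ x).2 hx
  refine plane_false hF2 D 0 0 1 z0 (Or.inr (Or.inr one_ne_zero)) ?_
  intro x y z hzz
  have hzz0 : z = z0 := by linarith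
  subst hzz0
  let j : ℕ → ℤ := fun n => round (y / (lin g 1 1 ^ n * t1))
  have hpt : ∀ n, (![x, (j n : ℝ) * (lin g 1 1 ^ n * t1), z] : E) ∈ D.K := by
    intro n
    have h2 := hTK _ ((trans.T D).zsmul_mem (hTmem n) (j n)) _
      (hz0 (x - (j n : ℝ) * (lin g 0 0 ^ n * t0)))
    convert h2 using 1
    funext i
    rw [Pi.add_apply, Pi.smul_apply, zsmul_eq_mul]
    fin_cases i <;> simp
  refine (hK D).1.mem_of_tendsto (tendsto_vec tendsto_const_nhds ?_ tendsto_const_nhds)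
    (Eventually.of_forall hpt)
  rw [tendsto_iff_norm_sub_tendsto_zero]
  refine squeeze_zero (fun _ => norm_nonneg _) (g := fun n => lin g 1 1 ^ n * |t1|) (fun n => ?_) ?_
  · have hne : lin g 1 1 ^ n * t1 ≠ 0 := mul_ne_zero (pow_pos hgμ0 n).ne' ht1
    have h4 := abs_sub_round (y / (lin g 1 1 ^ n * t1))
    have h5 : (j n : ℝ) * (lin g 1 1 ^ n * t1) - y =
        -((y / (lin g 1 1 ^ n * t1) - round (y / (lin g 1 1 ^ n * t1))) * (lin g 1 1 ^ n * t1)) := by
      show (round (y / (lin g 1 1 ^ n * t1)) : ℝ) * (lin g 1 1 ^ n * t1) - y = _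
      field_simp
      ring
    rw [h5, norm_neg, norm_mul, Real.norm_eq_abs, Real.norm_eq_abs, abs_mul,
      abs_of_pos (pow_pos hgμ0 n)]
    have h6 : 0 ≤ lin g 1 1 ^ n * |t1| := by
      have := pow_pos hgμ0 n
      positivity
    nlinarith
  · simpa using hpμ.mul_const |t1|

/-- **Module `T1a`** -/
theorem T1a (hco : S_coord) (hP : S_P1) (hcof : S_cof) (hF1 : S_F1) (hF2 : S_F2) (hK : S_K)
    (hnorm : S_norm) : S_T1a := by
  -- the case of eigenvalue larger than one
  have main : ∀ (D : KData) (γ : Aff3), D.Tri → (∀ γ ∈ D.Γ, lin γ 2 2 = 1) → γ ∈ D.Γ → tr γ 2 = 0 →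
      1 < lin γ 0 0 → False := by
    intro D γ htri hone hγ htr hl
    obtain ⟨φ, D', htri', hφ, hφ1, hiff, -, hconj, c01, c12, c02, ct⟩ := hnorm D γ htri hγ
    have hdet : lin γ 0 0 * lin γ 1 1 = 1 := by
      have := (htri γ hγ).2.2.2.2.2.2
      rw [hone γ hγ, mul_one] at this
      exact this
    have hμ0 : 0 < lin γ 1 1 := (htri γ hγ).2.2.2.2.1
    have hμ1 : lin γ 1 1 < 1 := by nlinarith
    have hg := hconj γ hγ
    have hone' : ∀ δ ∈ D'.Γ, lin δ 2 2 = 1 := by
      intro δ hδ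
      have h1 := (hiff δ).1 hδ
      have h2 := (hconj _ h1).2 2
      have h3 : φ * (φ⁻¹ * δ * φ) * φ⁻¹ = δ := by group
      rw [h3] at h2
      rw [h2]
      exact hone _ h1
    refine main_norm hco hP hcof hF1 hF2 hK D' htri' hone' hg.1 (c01 ?_) (c02 ?_) (c12 ?_) ?_ ?_
    · intro h
      linarith
    · intro h
      rw [hone γ hγ] at h
      linarith
    · intro h
      rw [hone γ hγ] at h
      linarith
    · intro i
      fin_cases i
      · exact ct 0 (by intro h; linarith)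
      · exact ct 1 (by intro h; linarith)
      · show (φ (γ (φ⁻¹ 0))) 2 = 0
        have hφz : ∀ p : E, φ p 2 = p 2 + tr φ 2 := by
          intro p
          rw [hco.1 φ p 2, hφ.2.1, hφ.2.2.1, hφ1 2]
          ring
        have hγz : ∀ p : E, γ p 2 = p 2 := by
          intro p
          rw [hco.1 γ p 2, (htri γ hγ).2.1, (htri γ hγ).2.2.1, hone γ hγ, htr]
          ring
        rw [hφz, hγz, ← hφz]
        have : φ (φ⁻¹ (0 : E)) = 0 := AffineEquiv.apply_symm_apply φ 0
        rw [this]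
        rfl
    · rw [hg.2 0]
      exact hl
  intro D γ htri hone hγ htr hne
  rcases lt_or_gt_of_ne hne with hlt | hgt
  · -- pass to the inverse
    have hinvΓ := D.Γ.inv_mem hγ
    have h00 : lin γ 0 0 * lin γ⁻¹ 0 0 = 1 := by
      have h1 : lin (γ * γ⁻¹) 0 0 = lin γ 0 0 * lin γ⁻¹ 0 0 := by
        rw [hco.2.1, (htri _ hinvΓ).1, (htri _ hinvΓ).2.1]
        ring
      rw [mul_inv_cancel] at h1
      rw [← h1]
      show (e 0 : E) 0 = 1
      simp [e]
    refine main D γ⁻¹ htri hone hinvΓ ?_ ?_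
    · have h1 : ∀ p : E, γ p 2 = p 2 := by
        intro p
        rw [hco.1 γ p 2, (htri γ hγ).2.1, (htri γ hγ).2.2.1, hone γ hγ, htr]
        ring
      have h2 := h1 (γ⁻¹ 0)
      have h3 : γ (γ⁻¹ (0 : E)) = 0 := AffineEquiv.apply_symm_apply γ 0
      rw [h3] at h2
      exact h2.symm
    · have h1 : 0 < lin γ 0 0 := (htri γ hγ).2.2.2.1
      have h2 : 0 < lin γ⁻¹ 0 0 := (htri _ hinvΓ).2.2.2.1
      nlinarith
  · exact main D γ htri hone hγ htr hgt

end Pool.Agent.Helper13.K3.T1a
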